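import Pool.Agent.Q4.SPC.Stm

/-!
# Project SPC (helper4, MP_34be05_nt), job SCR (helper162): Chinese remainder with the values `0` and `1`
-/

set_option autoImplicit false

open IsDedekindDomain

namespace Pool.Agent.Q162.SPC

/-- **JOB SCR** -/
theorem scr : Q4.SPC.SCR := by
  intro R _ _ _ I hI P
  classical
  have hfin : {v : HeightOneSpectrum R | v.asIdeal ∣ I}.Finite := Ideal.finite_factors hI
  obtain ⟨y, hy⟩ := IsDedekindDomain.exists_forall_sub_mem_ideal (s := hfin.toFinset)
    (fun v : HeightOneSpectrum R => v.asIdeal) (fun _ => 1) (fun v _ => v.prime)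
    (fun v _ w _ h hvw => h (HeightOneSpectrum.ext hvw))
    (fun v => if P v.1.asIdeal then (0 : R) else 1)
  refine ⟨y, fun p hp hIp => ?_⟩
  have hp0 : p ≠ ⊥ := fun h => hI (le_bot_iff.1 (h ▸ hIp))
  let v : HeightOneSpectrum R := ⟨p, hp.isPrime, hp0⟩
  have hv : v ∈ hfin.toFinset := by
    rw [Set.Finite.mem_toFinset]
    exact Ideal.dvd_iff_le.2 hIp
  have h1 := hy v hv
  simp only [pow_one] at h1
  constructor
  · intro h
    have h2 : P v.asIdeal := h
    rw [if_pos h2, sub_zero] at h1
    exact h1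
  · intro h
    have h2 : ¬ P v.asIdeal := h
    rw [if_neg h2] at h1
    exact h1

end Pool.Agent.Q162.SPC
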